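import Pool.Agent.Helper85.Lusin.Select

/-!
# `K_Omega`-Lindelof Lusin sets: big sets of tuples, the two basic lemmas
-/

open Set TopologicalSpace Filter Topology
open Pool.Agent.Helper85.Lusin

namespace Pool.Agent.Helper18.KO

/-- A set of tuples is big if it contains, for every countable set `C`, an injective tuple all
of whose entries are outside `C`. -/
def Big {X ι : Type*} (K : Set (ι → X)) : Prop :=
  ∀ C : Set X, C.Countable → ∃ x ∈ K, Function.Injective x ∧ ∀ i, x i ∉ C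

section Big

variable {X ι : Type*}

lemma Big.mono {K L : Set (ι → X)} (h : Big K) (hKL : K ⊆ L) : Big L := by
  intro C hC
  obtain ⟨x, hx, hi, hxC⟩ := h C hC
  exact ⟨x, hKL hx, hi, hxC⟩

lemma not_big {K : Set (ι → X)} (h : ¬ Big K) :
    ∃ C : Set X, C.Countable ∧ ∀ x ∈ K, Function.Injective x → ∃ i, x i ∈ C := by
  unfold Big at h
  push Not at h
  exact h

/-- If a big set is covered, as far as its injective tuples are concerned, by countably many
sets, one of them is big. -/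
lemma Big.exists_of_cover {K : Set (ι → X)} (h : Big K) {J : Type*} [Countable J]
    (L : J → Set (ι → X)) (hL : ∀ x ∈ K, Function.Injective x → ∃ j, x ∈ L j) :
    ∃ j, Big (K ∩ L j) := by
  by_contra hcon
  push Not at hcon
  have := fun j => not_big (hcon j)
  choose C hC hC' using this
  obtain ⟨x, hx, hxi, hxC⟩ := h (⋃ j, C j) (countable_iUnion hC)
  obtain ⟨j, hj⟩ := hL x hx hxi
  obtain ⟨i, hi⟩ := hC' j x ⟨hx, hj⟩ hxi
  exact hxC i (mem_iUnion.2 ⟨j, hi⟩)

end Big

variable {X : Type*} [TopologicalSpace X]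

lemma frontier_countable' (hL : ∀ M : Set X, IsMeagre M → M.Countable)
    (U : Set X) (hU : IsOpen U) : (frontier U).Countable := by
  apply hL
  apply IsNowhereDense.isMeagre
  rw [isClosed_frontier.isNowhereDense_iff, ← frontier_compl]
  exact interior_frontier hU.isClosed_compl

/-- In an infinite regular space there is a nonempty open set whose closure misses a given finite
set. -/
lemma exists_away [T3Space X] [Infinite X] (F : Set X) (hF : F.Finite) :
    ∃ W : Set X, IsOpen W ∧ W.Nonempty ∧ Disjoint (closure W) F := by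
  obtain ⟨p, hp⟩ := hF.exists_notMem
  obtain ⟨t, ht, htc, htF⟩ := exists_mem_nhds_isClosed_subset
    (hF.isClosed.isOpen_compl.mem_nhds hp)
  refine ⟨interior t, isOpen_interior, ⟨p, mem_interior_iff_mem_nhds.2 ht⟩, ?_⟩
  refine disjoint_left.2 fun x hx hxF => htF ?_ hxF
  exact htc.closure_subset_iff.2 interior_subset hx

/-- LEMMA A: if `X` is `K_Omega`-Lindelof and `K` is big, then some finite set `F` is unavoidable:
each open set with `F` in its closure contains all entries of some tuple of `K`. -/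
theorem lemmaA [T3Space X] [Infinite X] (hL : ∀ M : Set X, IsMeagre M → M.Countable)
    (hKL : KOmegaLindelof X) {ι : Type*} [Finite ι] {K : Set (ι → X)} (hK : Big K) :
    ∃ F : Set X, F.Finite ∧
      ∀ U : Set X, IsOpen U → F ⊆ closure U → ∃ x ∈ K, ∀ i, x i ∈ U := by
  classical
  by_contra hcon
  push Not at hcon
  set 𝒰 : Set (Set X) := {U | IsOpen U ∧ ¬ Dense U ∧ ∀ x ∈ K, ∃ i, x i ∉ U} with h𝒰
  have hcap : ∀ F : Set X, F.Finite → ∃ U ∈ 𝒰, F ⊆ closure U := by
    intro F hF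
    obtain ⟨U, hU, hFU, hUK⟩ := hcon F hF
    obtain ⟨W, hW, hWn, hWF⟩ := exists_away F hF
    refine ⟨U \ closure W, ⟨hU.sdiff isClosed_closure, ?_, ?_⟩, ?_⟩
    · intro hd
      obtain ⟨p, hp1, hp2⟩ := hd.inter_open_nonempty W hW hWn
      exact hp2.2 (subset_closure hp1)
    · intro x hx
      obtain ⟨i, hi⟩ := hUK x hx
      exact ⟨i, fun h => hi h.1⟩
    · intro f hf
      have h1 : f ∈ closure U := hFU hf
      have h2 : f ∈ (closure W)ᶜ := fun h => hWF.le_bot ⟨h, hf⟩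
      rw [mem_closure_iff] at h1 ⊢
      intro o ho hfo
      obtain ⟨y, hy1, hy2⟩ := h1 (o ∩ (closure W)ᶜ) (ho.inter isClosed_closure.isOpen_compl)
        ⟨hfo, h2⟩
      exact ⟨y, hy1.1, hy2, hy1.2⟩
  have hKO : IsKOmega 𝒰 := by
    refine ⟨fun U hU => hU.1, ?_, fun U hU => hU.2.1, hcap⟩
    rw [eq_univ_iff_forall]
    intro x
    obtain ⟨U, hU, hxU⟩ := hcap {x} (finite_singleton x)
    exact mem_biUnion hU (hxU rfl)
  obtain ⟨𝒱, h𝒱𝒰, h𝒱c, h𝒱⟩ := hKL 𝒰 hKO
  obtain ⟨x, hx, hxi, hxC⟩ := hK (⋃ V ∈ 𝒱, frontier V)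
    (h𝒱c.biUnion fun V hV => frontier_countable' hL V (h𝒱.1 V hV))
  obtain ⟨V, hV, hxV⟩ := h𝒱.2.2.2 (range x) (finite_range x)
  obtain ⟨i, hi⟩ := (h𝒱𝒰 hV).2.2 x hx
  apply hxC i
  refine mem_biUnion hV ?_
  rw [(h𝒱.1 V hV).frontier_eq]
  exact ⟨hxV (mem_range_self i), hi⟩

/-- LEMMA B: a failure of `S_1(K_Omega, K_Omega)` is witnessed by a finite set `G`, a number `k`
and one sequence of families, in a uniform way. -/
theorem lemmaB [Infinite X] (hS : ¬ S1KOmega X) :
    ∃ (G : Finset X) (k : ℕ) (𝒰 : ℕ → Set (Set X)), (∀ n, IsKOmega (𝒰 n)) ∧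
      ∀ U : ℕ → Set X, (∀ n, U n ∈ 𝒰 n) →
        Big {x : Fin k → X | ∀ n, (G : Set X) ⊆ closure (U n) → ∃ i, x i ∉ U n} := by
  classical
  by_contra hcon
  push Not at hcon
  apply hS
  intro 𝒰 h𝒰
  have hsel : ∀ (G : Finset X) (k i : ℕ), ∃ U : ℕ → Set X, (∀ m, U m ∈ 𝒰 (Nat.pair i m)) ∧
      ∃ C : Set X, C.Countable ∧ ∀ x ∈ {x : Fin k → X | ∀ n, (G : Set X) ⊆ closure (U n) →
        ∃ i, x i ∉ U n}, Function.Injective x → ∃ i, x i ∈ C := by
    intro G k i
    obtain ⟨U, hU, hUb⟩ := hcon G k (fun m => 𝒰 (Nat.pair i m)) fun m => h𝒰 _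
    exact ⟨U, hU, not_big hUb⟩
  choose U hU C hC hC' using hsel
  obtain ⟨Y, hY, hYC⟩ := exists_closed_countable (fun G => ⋃ q : ℕ × ℕ, C G q.1 q.2)
    fun G => countable_iUnion fun q => hC G q.1 q.2
  have hYf : {G : Finset X | (G : Set X) ⊆ Y}.Countable := by
    have h1 : {s : Set X | s.Finite ∧ s ⊆ Y}.Countable := countable_ofPred_finite_subset hY
    refine Set.Countable.mono ?_ (h1.preimage_of_injOn (f := fun E : Finset X => (E : Set X))
      Finset.coe_injective.injOn)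
    intro E hE
    exact ⟨E.finite_toSet, hE⟩
  obtain ⟨e, he⟩ := (hYf.prod (countable_univ (α := ℕ))).exists_eq_range
    ⟨(∅, 0), by simp, mem_univ _⟩
  have heY : ∀ i, ((e i).1 : Set X) ⊆ Y := by
    intro i
    have : e i ∈ range e := mem_range_self i
    rw [← he] at this
    exact this.1
  set V : ℕ → Set X := fun n =>
    U (e (Nat.unpair n).1).1 (e (Nat.unpair n).1).2 (Nat.unpair n).1 (Nat.unpair n).2 with hV
  have hVU : ∀ n, V n ∈ 𝒰 n := by
    intro n
    have := hU (e (Nat.unpair n).1).1 (e (Nat.unpair n).1).2 (Nat.unpair n).1 (Nat.unpair n).2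
    rwa [Nat.pair_unpair] at this
  have hcap : ∀ F : Set X, F.Finite → ∃ n, F ⊆ closure (V n) := by
    intro F hF
    set G : Finset X := hF.toFinset.filter (· ∈ Y) with hG
    set E : Finset X := hF.toFinset.filter (· ∉ Y) with hE
    have hGY : (G : Set X) ⊆ Y := by
      intro x hx
      have : x ∈ G := hx
      rw [hG, Finset.mem_filter] at this
      exact this.2
    have : (G, E.card) ∈ range e := by
      rw [← he]
      exact ⟨hGY, mem_univ _⟩
    obtain ⟨i, hi⟩ := this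
    set x : Fin E.card → X := fun j => (E.equivFin.symm j : X) with hx
    have hxi : Function.Injective x := by
      intro a b hab
      exact E.equivFin.symm.injective (Subtype.ext hab)
    have hxE : ∀ j, x j ∈ E := fun j => (E.equivFin.symm j).2
    have hxn : ¬ ∃ j, x j ∈ C G E.card i := by
      rintro ⟨j, hj⟩
      have h1 : x j ∈ Y := hYC G hGY (mem_iUnion.2 ⟨(E.card, i), hj⟩)
      have h2 := hxE j
      rw [hE, Finset.mem_filter] at h2
      exact h2.2 h1
    have h3 : ¬ ∀ n, (G : Set X) ⊆ closure (U G E.card i n) → ∃ j, x j ∉ U G E.card i n :=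
      fun h => hxn (hC' G E.card i x h hxi)
    push Not at h3
    obtain ⟨m, hm1, hm2⟩ := h3
    refine ⟨Nat.pair i m, ?_⟩
    have hVe : V (Nat.pair i m) = U G E.card i m := by
      simp only [hV, Nat.unpair_pair, hi]
    rw [hVe]
    intro f hf
    by_cases hfY : f ∈ Y
    · apply hm1
      have : f ∈ G := by
        rw [hG, Finset.mem_filter]
        exact ⟨by simpa using hf, hfY⟩
      exact this
    · have : f ∈ E := by
        rw [hE, Finset.mem_filter]
        exact ⟨by simpa using hf, hfY⟩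
      have h4 := hm2 (E.equivFin ⟨f, this⟩)
      simp only [hx, Equiv.symm_apply_apply] at h4
      exact subset_closure h4
  refine ⟨V, hVU, ?_, ?_, ?_, ?_⟩
  · rintro _ ⟨n, rfl⟩
    exact (h𝒰 n).1 _ (hVU n)
  · rw [eq_univ_iff_forall]
    intro x
    obtain ⟨n, hn⟩ := hcap {x} (finite_singleton x)
    exact mem_biUnion (mem_range_self n) (hn rfl)
  · rintro _ ⟨n, rfl⟩
    exact (h𝒰 n).2.2.1 _ (hVU n)
  · intro F hF
    obtain ⟨n, hn⟩ := hcap F hF
    exact ⟨_, mem_range_self n, hn⟩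

/-- LEMMA B for `K_Omega`-Lindelof spaces: countable families. -/
theorem lemmaB' [Infinite X] (hKL : KOmegaLindelof X) (hS : ¬ S1KOmega X) :
    ∃ (k : ℕ) (U : ℕ → ℕ → Set X), (∀ n m, IsOpen (U n m)) ∧
      (∀ n, ∀ F : Set X, F.Finite → ∃ m, F ⊆ closure (U n m)) ∧
      ∀ g : ℕ → ℕ, Big {x : Fin k → X | ∀ n, ∃ i, x i ∉ U n (g n)} := by
  classical
  obtain ⟨G, k, 𝒰, h𝒰, hbig⟩ := lemmaB hS
  have h1 : ∀ n, ∃ u : ℕ → Set X, (∀ m, u m ∈ 𝒰 n) ∧ (∀ m, (G : Set X) ⊆ closure (u m)) ∧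
      ∀ F : Set X, F.Finite → ∃ m, F ⊆ closure (u m) := by
    intro n
    obtain ⟨𝒱, h𝒱𝒰, h𝒱c, h𝒱⟩ := hKL (𝒰 n) (h𝒰 n)
    have hc : {V | V ∈ 𝒱 ∧ (G : Set X) ⊆ closure V}.Countable := h𝒱c.mono fun V hV => hV.1
    have hne : {V | V ∈ 𝒱 ∧ (G : Set X) ⊆ closure V}.Nonempty := by
      obtain ⟨V, hV, hGV⟩ := h𝒱.2.2.2 (G : Set X) G.finite_toSet
      exact ⟨V, hV, hGV⟩
    obtain ⟨u, hu⟩ := hc.exists_eq_range hne
    have hu' : ∀ m, u m ∈ 𝒱 ∧ (G : Set X) ⊆ closure (u m) := by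
      intro m
      have : u m ∈ range u := mem_range_self m
      rw [← hu] at this
      exact this
    refine ⟨u, fun m => h𝒱𝒰 (hu' m).1, fun m => (hu' m).2, ?_⟩
    intro F hF
    obtain ⟨V, hV, hV'⟩ := h𝒱.2.2.2 (F ∪ G) (hF.union G.finite_toSet)
    have : V ∈ range u := by
      rw [← hu]
      exact ⟨hV, subset_union_right.trans hV'⟩
    obtain ⟨m, rfl⟩ := this
    exact ⟨m, subset_union_left.trans hV'⟩
  choose U hU hGU hFU using h1
  refine ⟨k, U, fun n m => (h𝒰 n).1 _ (hU n m), hFU, ?_⟩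
  intro g
  refine (hbig (fun n => U n (g n)) fun n => hU n (g n)).mono ?_
  intro x hx n
  exact hx n (hGU n (g n))

end Pool.Agent.Helper18.KO
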