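import Mathlib

/-!
# Two constructions in metric spaces: concentration and annuli
-/

open Set TopologicalSpace Filter Topology

namespace Pool.Agent.Helper18.KO

section avoid

variable {X : Type*} [TopologicalSpace X]

/-- A nonempty open set is not covered by finitely many closed sets with empty interior. -/
lemma exists_avoid {J : Type*} [Finite J] (S : J → Set X) (hc : ∀ j, IsClosed (S j))
    (hi : ∀ j, interior (S j) = ∅) (O : Set X) (hO : IsOpen O) (hOn : O.Nonempty) :
    ∃ q ∈ O, ∀ j, q ∉ S j := by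
  classical
  cases nonempty_fintype J
  have h : ∀ s : Finset J, ∃ O' : Set X, IsOpen O' ∧ O'.Nonempty ∧ O' ⊆ O ∧
      ∀ j ∈ s, ∀ x ∈ O', x ∉ S j := by
    intro s
    induction s using Finset.induction_on with
    | empty => exact ⟨O, hO, hOn, subset_rfl, by simp⟩
    | insert j s hj ih =>
      obtain ⟨O', h1, h2, h3, h4⟩ := ih
      refine ⟨O' \ S j, h1.sdiff (hc j), ?_, sdiff_subset.trans h3, ?_⟩
      · rw [nonempty_iff_ne_empty]
        intro h5
        rw [sdiff_eq_empty] at h5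
        have h6 := interior_maximal h5 h1
        rw [hi j] at h6
        obtain ⟨x, hx⟩ := h2
        exact h6 hx
      · intro i his x hx
        rw [Finset.mem_insert] at his
        rcases his with rfl | his
        · exact hx.2
        · exact h4 i his x hx.1
  obtain ⟨O', h1, ⟨x, hx⟩, h3, h4⟩ := h Finset.univ
  exact ⟨x, h3 hx, fun j => h4 j (Finset.mem_univ _) x hx⟩

end avoid

lemma exists_pos_le {J : Type*} [Finite J] (f : J → ℝ) (hf : ∀ j, 0 < f j) :
    ∃ δ : ℝ, 0 < δ ∧ ∀ j, δ ≤ f j := by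
  rcases isEmpty_or_nonempty J with h | h
  · exact ⟨1, one_pos, fun j => (h.false j).elim⟩
  · obtain ⟨i, hi⟩ := Finite.exists_min f
    exact ⟨f i, hf i, hi⟩

variable {X : Type*} [MetricSpace X]

section conc

variable {l : ℕ} {P : Set (Fin (l + 1) → X)} {A : Fin (l + 1) → Set X}

/-- The step of the concentration. -/
lemma conc_step (hP : IsClosed P) (hA : ∀ i, IsClosed (A i))
    (hAd : Pairwise fun i j => Disjoint (A i) (A j)) (hPA : ∀ x ∈ P, ∀ i, x i ∈ A i)
    {Y : Set X} (hY : Y.Finite)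
    (hsec : ∀ (j : Fin (l + 1)) (x : Fin (l + 1) → X), (∀ i, x i ∈ Y) →
      interior {a | Function.update x j a ∈ P} = ∅)
    {V : Set X} (hV : IsOpen V) (hYV : Y ⊆ closure V)
    {c W : Set X} (hc : IsOpen c) (hcV : c ⊆ V) (hW : IsOpen W) (hYW : Y ⊆ W)
    (hinv : ∀ x ∈ P, (∀ i, x i ∈ c ∪ W) → ∀ i, x i ∉ c) {y : X} (hy : y ∈ Y) {ε : ℝ}
    (hε : 0 < ε) :
    ∃ c' W' : Set X, IsOpen c' ∧ c' ⊆ V ∧ IsOpen W' ∧ Y ⊆ W' ∧
      (∀ x ∈ P, (∀ i, x i ∈ c' ∪ W') → ∀ i, x i ∉ c') ∧ c ⊆ c' ∧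
      ∃ q ∈ c', dist q y < ε := by
  classical
  have hYf : Finite Y := hY
  set O : Set X := V ∩ (W ∩ Metric.ball y ε) with hO
  have hOo : IsOpen O := hV.inter (hW.inter Metric.isOpen_ball)
  have hOn : O.Nonempty := by
    obtain ⟨z, hz1, hz2⟩ := mem_closure_iff.1 (hYV hy) (W ∩ Metric.ball y ε)
      (hW.inter Metric.isOpen_ball) ⟨hYW hy, Metric.mem_ball_self hε⟩
    exact ⟨z, hz2, hz1⟩
  obtain ⟨q, hq, hqP⟩ := exists_avoid
    (J := Fin (l + 1) × (Fin (l + 1) → Y))
    (fun p => {a | Function.update (fun i => (p.2 i : X)) p.1 a ∈ P})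
    (fun p => hP.preimage (continuous_const.update p.1 continuous_id))
    (fun p => hsec p.1 _ fun i => (p.2 i).2) O hOo hOn
  have hball : ∀ p : Fin (l + 1) × (Fin (l + 1) → Y), ∃ δ : ℝ, 0 < δ ∧
      Metric.ball (Function.update (fun i => (p.2 i : X)) p.1 q) δ ⊆ Pᶜ := by
    intro p
    exact Metric.isOpen_iff.1 hP.isOpen_compl _ (hqP p)
  choose δ0 hδ0 hδP using hball
  obtain ⟨δ, hδ, hδle⟩ := exists_pos_le δ0 hδ0
  set N : Set X := (⋃ i ∈ {i | q ∉ A i}, A i)ᶜ with hN
  have hNo : IsOpen N := by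
    rw [hN, isOpen_compl_iff]
    exact (Set.toFinite _).isClosed_biUnion fun i _ => hA i
  have hqN : q ∈ N := by
    simp only [hN, mem_compl_iff, mem_iUnion, not_exists]
    exact fun i hi => hi
  have hNA : ∀ x ∈ N, ∀ i, x ∈ A i → q ∈ A i := by
    intro x hx i hxi
    by_contra hcon
    exact hx (mem_biUnion (show i ∈ {i | q ∉ A i} from hcon) hxi)
  set c0 : Set X := Metric.ball q δ ∩ (O ∩ N) with hc0
  have hc0o : IsOpen c0 := Metric.isOpen_ball.inter (hOo.inter hNo)
  have hqc0 : q ∈ c0 := ⟨Metric.mem_ball_self hδ, hq, hqN⟩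
  have hWo : IsOpen (W ∩ ⋃ z ∈ Y, Metric.ball z δ) :=
    hW.inter (isOpen_biUnion fun z _ => Metric.isOpen_ball)
  refine ⟨c ∪ c0, W ∩ ⋃ z ∈ Y, Metric.ball z δ, hc.union hc0o, ?_, hWo, ?_, ?_,
    subset_union_left, q, Or.inr hqc0, hq.2.2⟩
  · exact union_subset hcV fun x hx => hx.2.1.1
  · exact fun z hz => ⟨hYW hz, mem_biUnion hz (Metric.mem_ball_self hδ)⟩
  · intro x hx hxi
    have h1 : ∀ i, x i ∈ c ∪ W := by
      intro i
      rcases hxi i with (h | h) | h
      · exact Or.inl h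
      · exact Or.inr h.2.1.2.1
      · exact Or.inr h.1
    have h2 := hinv x hx h1
    intro j hj
    have hj0 : x j ∈ c0 := hj.resolve_left (h2 j)
    have h3 : ∀ i, i ≠ j → ∃ z : Y, x i ∈ Metric.ball (z : X) δ := by
      intro i hij
      rcases hxi i with (h | h) | h
      · exact (h2 i h).elim
      · exfalso
        exact (hAd hij).le_bot ⟨hNA _ h.2.2 i (hPA x hx i), hNA _ hj0.2.2 j (hPA x hx j)⟩
      · obtain ⟨z, hz, hxz⟩ := mem_iUnion₂.1 h.2
        exact ⟨⟨z, hz⟩, hxz⟩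
    have h4 : ∀ i, ∃ z : Y, i ≠ j → x i ∈ Metric.ball (z : X) δ := by
      intro i
      by_cases hij : i = j
      · exact ⟨⟨y, hy⟩, fun h => (h hij).elim⟩
      · obtain ⟨z, hz⟩ := h3 i hij
        exact ⟨z, fun _ => hz⟩
    choose z hz using h4
    apply hδP (j, z) _ hx
    rw [Metric.mem_ball, dist_pi_lt_iff (hδ0 _)]
    intro i
    refine lt_of_lt_of_le ?_ (hδle (j, z))
    by_cases hij : i = j
    · subst hij
      rw [Function.update_self]
      exact hj0.1
    · rw [Function.update_of_ne hij]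
      exact hz i hij

/-- CONCENTRATION: if the sections of `P` over tuples from the finite set `Y` are nowhere dense,
each open set `V` with `Y` in its closure can be shrunk to one that still has `Y` in its closure
and contains all entries of no tuple of `P`. -/
theorem conc (hP : IsClosed P) (hA : ∀ i, IsClosed (A i))
    (hAd : Pairwise fun i j => Disjoint (A i) (A j)) (hPA : ∀ x ∈ P, ∀ i, x i ∈ A i)
    {Y : Set X} (hY : Y.Finite)
    (hsec : ∀ (j : Fin (l + 1)) (x : Fin (l + 1) → X), (∀ i, x i ∈ Y) →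
      interior {a | Function.update x j a ∈ P} = ∅)
    {V : Set X} (hV : IsOpen V) (hYV : Y ⊆ closure V) :
    ∃ U : Set X, IsOpen U ∧ U ⊆ V ∧ Y ⊆ closure U ∧ ∀ x ∈ P, ∃ i, x i ∉ U := by
  classical
  rcases Y.eq_empty_or_nonempty with hY0 | hYn
  · refine ⟨∅, isOpen_empty, empty_subset _, by simp [hY0], fun x _ => ⟨0, by simp⟩⟩
  have hYc : Y.Countable := hY.countable
  obtain ⟨e, he⟩ := hYc.exists_eq_range hYn
  have heY : ∀ n, e n ∈ Y := fun n => he ▸ mem_range_self n
  let St : Type _ := {p : Set X × Set X // IsOpen p.1 ∧ p.1 ⊆ V ∧ IsOpen p.2 ∧ Y ⊆ p.2 ∧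
    ∀ x ∈ P, (∀ i, x i ∈ p.1 ∪ p.2) → ∀ i, x i ∉ p.1}
  have hstep : ∀ (t : ℕ) (p : St), ∃ p' : St, p.1.1 ⊆ p'.1.1 ∧
      ∃ q ∈ p'.1.1, dist q (e (Nat.unpair t).1) < 1 / ((t : ℝ) + 1) := by
    intro t p
    obtain ⟨c', W', h1, h2, h3, h4, h5, h6, h7⟩ := conc_step hP hA hAd hPA hY hsec hV hYV
      p.2.1 p.2.2.1 p.2.2.2.1 p.2.2.2.2.1 p.2.2.2.2.2 (heY (Nat.unpair t).1)
      (ε := 1 / ((t : ℝ) + 1)) (by positivity)
    exact ⟨⟨(c', W'), h1, h2, h3, h4, h5⟩, h6, h7⟩
  choose step hstep1 hstep2 using hstep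
  let p0 : St := ⟨(∅, univ), isOpen_empty, empty_subset _, isOpen_univ, subset_univ _,
    fun x _ _ i => by simp⟩
  let S : ℕ → St := fun n => Nat.rec p0 (fun t p => step t p) n
  have hS : ∀ t, S (t + 1) = step t (S t) := fun t => rfl
  have hmono : Monotone fun n => (S n).1.1 := monotone_nat_of_le_succ fun n => by
    show (S n).1.1 ⊆ (S (n + 1)).1.1
    rw [hS]
    exact hstep1 n (S n)
  refine ⟨⋃ n, (S n).1.1, isOpen_iUnion fun n => (S n).2.1, iUnion_subset fun n => (S n).2.2.1,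
    ?_, ?_⟩
  · intro y hy
    rw [he] at hy
    obtain ⟨a, rfl⟩ := hy
    rw [Metric.mem_closure_iff]
    intro ε hε
    obtain ⟨b, hb⟩ := exists_nat_one_div_lt hε
    obtain ⟨q, hq1, hq2⟩ := hstep2 (Nat.pair a b) (S (Nat.pair a b))
    refine ⟨q, mem_iUnion.2 ⟨Nat.pair a b + 1, by rw [hS]; exact hq1⟩, ?_⟩
    rw [Nat.unpair_pair] at hq2
    rw [dist_comm]
    refine lt_of_lt_of_le hq2 (le_trans ?_ hb.le)
    apply one_div_le_one_div_of_le (by positivity)
    have : (b : ℝ) ≤ (Nat.pair a b : ℝ) := by exact_mod_cast Nat.right_le_pair a b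
    linarith
  · intro x hx
    by_contra hcon
    push Not at hcon
    have : ∀ i, ∃ n, x i ∈ (S n).1.1 := fun i => mem_iUnion.1 (hcon i)
    choose n hn using this
    set m := Finset.univ.sup n with hm
    have h1 : ∀ i, x i ∈ (S m).1.1 := fun i => hmono (Finset.le_sup (Finset.mem_univ i)) (hn i)
    exact (S m).2.2.2.2.2 x hx (fun i => Or.inl (h1 i)) 0 (h1 0)

end conc

/-- ANNULI: a function `h` of the distance to the finite set `T` such that each open set `U m`
that has a non-isolated point `s` of `T` in its closure still has it in its closure after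
intersection with (an open part of) the set where `h` has the value `m`. -/
theorem annuli {T : Set X} (hT : T.Finite) (hTn : T.Nonempty) (U : ℕ → Set X)
    (hU : ∀ m, IsOpen (U m)) :
    ∃ (h : ℝ → ℕ) (B : ℕ → Set X), (∀ m, IsOpen (B m)) ∧
      (∀ m, ∀ a ∈ B m, h (Metric.infDist a T) = m) ∧
      ∀ m, ∀ s ∈ T, ¬ IsOpen {s} → s ∈ closure (U m) → s ∈ closure (B m ∩ U m) := by
  classical
  have hTne : Nonempty T := hTn.to_subtype
  have hTcount : Countable T := hT.countable
  obtain ⟨e, he⟩ := exists_surjective_nat (ℕ × T)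
  have hstep : ∀ (t : ℕ) (r : {r : ℝ // 0 < r}), ∃ r' : {r : ℝ // 0 < r}, r'.1 < r.1 ∧
      (¬ IsOpen {((e (Nat.unpair t).1).2 : X)} →
        ((e (Nat.unpair t).1).2 : X) ∈ closure (U (e (Nat.unpair t).1).1) →
        ∃ a ∈ U (e (Nat.unpair t).1).1, dist a ((e (Nat.unpair t).1).2 : X) < 1 / ((t : ℝ) + 1) ∧
          r'.1 < Metric.infDist a T ∧ Metric.infDist a T < r.1) := by
    intro t r
    generalize e (Nat.unpair t).1 = p
    obtain ⟨m, s⟩ := p
    by_cases hs : ¬ IsOpen {(s : X)} ∧ (s : X) ∈ closure (U m)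
    · obtain ⟨hs1, hs2⟩ := hs
      set ρ : ℝ := min r.1 (1 / ((t : ℝ) + 1)) with hρ
      have hρ0 : 0 < ρ := lt_min r.2 (by positivity)
      set N : Set X := Metric.ball (s : X) ρ ∩ (T \ {(s : X)})ᶜ with hN
      have hNo : IsOpen N :=
        Metric.isOpen_ball.inter (hT.subset sdiff_subset).isClosed.isOpen_compl
      have hsN : (s : X) ∈ N := ⟨Metric.mem_ball_self hρ0, fun h => h.2 rfl⟩
      have h1 : ∃ a ∈ N ∩ U m, a ≠ (s : X) := by
        by_contra hcon
        push Not at hcon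
        apply hs1
        have h2 : N ∩ U m = {(s : X)} := by
          obtain ⟨a, ha1, ha2⟩ := mem_closure_iff.1 hs2 N hNo hsN
          have : a = s := hcon a ⟨ha1, ha2⟩
          subst this
          exact Subset.antisymm (fun b hb => hcon b hb) (fun b hb => by
            rw [mem_singleton_iff] at hb
            rw [hb]
            exact ⟨ha1, ha2⟩)
        rw [← h2]
        exact hNo.inter (hU m)
      obtain ⟨a, ⟨haN, haU⟩, has⟩ := h1
      have haT : a ∉ T := fun h => haN.2 ⟨h, has⟩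
      have hd0 : 0 < Metric.infDist a T := by
        rw [← Metric.infDist_pos_iff_notMem_closure hTn, hT.isClosed.closure_eq]
        exact haT
      have hd1 : Metric.infDist a T ≤ dist a (s : X) := Metric.infDist_le_dist_of_mem s.2
      have hd2 : dist a (s : X) < ρ := haN.1
      have hρr : ρ ≤ r.1 := min_le_left _ _
      have hρt : ρ ≤ 1 / ((t : ℝ) + 1) := min_le_right _ _
      refine ⟨⟨Metric.infDist a T / 2, by positivity⟩, ?_, fun _ _ => ⟨a, haU, ?_, ?_, ?_⟩⟩
      · show Metric.infDist a T / 2 < r.1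
        linarith
      · exact lt_of_lt_of_le hd2 hρt
      · show Metric.infDist a T / 2 < Metric.infDist a T
        linarith
      · linarith
    · refine ⟨⟨r.1 / 2, half_pos r.2⟩, half_lt_self r.2, fun h1 h2 => (hs ⟨h1, h2⟩).elim⟩
  choose step hstep1 hstep2 using hstep
  let r : ℕ → {r : ℝ // 0 < r} := fun n => Nat.rec ⟨1, one_pos⟩ (fun t p => step t p) n
  have hr : ∀ t, r (t + 1) = step t (r t) := fun t => rfl
  have hanti : StrictAnti fun n => (r n).1 := strictAnti_nat_of_succ_lt fun n => by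
    show (r (n + 1)).1 < (r n).1
    rw [hr]
    exact hstep1 n (r n)
  set m : ℕ → ℕ := fun t => (e (Nat.unpair t).1).1 with hm
  set h : ℝ → ℕ := fun x => if hx : ∃ t, (r (t + 1)).1 < x ∧ x < (r t).1 then m hx.choose else 0
    with hh
  have hhx : ∀ x t, (r (t + 1)).1 < x → x < (r t).1 → h x = m t := by
    intro x t h1 h2
    have hx : ∃ t, (r (t + 1)).1 < x ∧ x < (r t).1 := ⟨t, h1, h2⟩
    have h3 := hx.choose_spec
    have h4 : hx.choose = t := by
      rcases lt_trichotomy hx.choose t with h5 | h5 | h5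
      · exfalso
        have : (r t).1 ≤ (r (hx.choose + 1)).1 := hanti.antitone (Nat.succ_le_of_lt h5)
        linarith [h3.1]
      · exact h5
      · exfalso
        have : (r hx.choose).1 ≤ (r (t + 1)).1 := hanti.antitone (Nat.succ_le_of_lt h5)
        linarith [h3.2]
    rw [hh]
    simp only
    rw [dif_pos hx, h4]
  refine ⟨h, fun k => ⋃ t ∈ {t | m t = k},
    {a | (r (t + 1)).1 < Metric.infDist a T ∧ Metric.infDist a T < (r t).1}, ?_, ?_, ?_⟩
  · intro k
    refine isOpen_biUnion fun t _ => ?_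
    exact (isOpen_lt continuous_const (Metric.continuous_infDist_pt T)).inter
      (isOpen_lt (Metric.continuous_infDist_pt T) continuous_const)
  · intro k a ha
    obtain ⟨t, ht, ha'⟩ := mem_iUnion₂.1 ha
    rw [hhx _ t ha'.1 ha'.2]
    exact ht
  · intro k s hs hso hsc
    obtain ⟨a, ha⟩ := he (k, ⟨s, hs⟩)
    rw [Metric.mem_closure_iff]
    intro ε hε
    obtain ⟨b, hb⟩ := exists_nat_one_div_lt hε
    set t := Nat.pair a b with ht
    have hte : e (Nat.unpair t).1 = (k, ⟨s, hs⟩) := by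
      rw [ht, Nat.unpair_pair]
      exact ha
    have h1 := hstep2 t (r t)
    rw [hte] at h1
    obtain ⟨q, hq1, hq2, hq3, hq4⟩ := h1 hso hsc
    refine ⟨q, ⟨mem_iUnion₂.2 ⟨t, ?_, ?_, hq4⟩, hq1⟩, ?_⟩
    · show (e (Nat.unpair t).1).1 = k
      rw [hte]
    · rw [hr]
      exact hq3
    · rw [dist_comm]
      refine lt_of_lt_of_le hq2 (le_trans ?_ hb.le)
      apply one_div_le_one_div_of_le (by positivity)
      have : (b : ℝ) ≤ (t : ℝ) := by exact_mod_cast Nat.right_le_pair a b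
      linarith

end Pool.Agent.Helper18.KO
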