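import Pool.Agent.Helper18.KO.Reduce
import Pool.Agent.Helper18.KO.Conc

/-!
# `K_Omega`-Lindelof Lusin sets have `S_1(K_Omega, K_Omega)`
-/

open Set TopologicalSpace Filter Topology
open Pool.Agent.Helper85.Lusin

namespace Pool.Agent.Helper18.KO

/-- The main theorem, for metric spaces. -/
theorem s1_of_lindelof {X : Type*} [MetricSpace X] [SecondCountableTopology X] (hX : IsLusin X)
    (hKL : KOmegaLindelof X) : S1KOmega X := by
  classical
  by_contra hS
  have hunc := hX.1
  have hinf : Infinite X := inferInstance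
  obtain ⟨k, U, hU, hF, hbig⟩ := lemmaB' hKL hS
  obtain ⟨l, P, A, D0, hP, hPb, hA, hAd, hPA, hD0, hsec0⟩ := exists_setup (k := k) hU hF hbig
  -- the countable set of centres
  obtain ⟨p0⟩ : Nonempty X := inferInstance
  obtain ⟨s, hs⟩ := (hD0.insert p0).exists_eq_range (insert_nonempty _ _)
  have hsec : ∀ (j : Fin (l + 1)) (x : Fin (l + 1) → X), (∀ i, x i ∉ range s) →
      interior {a | Function.update x j a ∈ P} = ∅ := by
    intro j x hx
    refine hsec0 j x fun i _ hi => hx i ?_
    rw [← hs]
    exact mem_insert_of_mem _ hi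
  set T : ℕ → Set X := fun n => s '' Iic n with hTdef
  have hTf : ∀ n, (T n).Finite := fun n => (finite_Iic n).image s
  have hTn : ∀ n, (T n).Nonempty := fun n => ⟨s n, mem_image_of_mem s (mem_Iic.2 le_rfl)⟩
  have hann := fun n => annuli (hTf n) (hTn n) (U n) (hU n)
  choose h B hBo hBh hBc using hann
  -- the distance of a tuple to `T n`, and the choice function of a tuple
  set ρ : ℕ → (Fin (l + 1) → X) → ℝ := fun n e =>
    Finset.univ.inf' Finset.univ_nonempty (fun j => Metric.infDist (e j) (T n)) with hρ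
  set S : Set (Fin (l + 1) ⊕ Fin k → X) := {x | (fun i => x (Sum.inl i)) ∈ P ∧
    (∀ i, x (Sum.inl i) ∉ range s) ∧
    ∀ n, ∃ i, x (Sum.inr i) ∉ U n (h n (ρ n fun i => x (Sum.inl i)))} with hSdef
  -- `S` is big
  have hSb : Big S := by
    intro C hC
    obtain ⟨e, heP, hei, heC⟩ := hPb (C ∪ range s) (hC.union (countable_range s))
    obtain ⟨E, hEK, hEi, hEC⟩ := hbig (fun n => h n (ρ n e)) (C ∪ range e)
      (hC.union (countable_range e))
    refine ⟨Sum.elim e E, ⟨?_, ?_, ?_⟩, ?_, ?_⟩
    · simpa using heP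
    · intro i hi
      exact heC i (Or.inr (by simpa using hi))
    · intro n
      simpa using hEK n
    · refine hei.sumElim hEi fun a b hab => ?_
      exact hEC b (Or.inr ⟨a, hab⟩)
    · rintro (i | i)
      · exact fun hi => heC i (Or.inl hi)
      · exact fun hi => hEC i (Or.inl hi)
  obtain ⟨F, hFf, hFS⟩ := lemmaA hX.2 hKL hSb
  -- the index `n`
  have hidx : ∀ x : X, ∃ i, x ∈ range s → s i = x := by
    intro x
    by_cases hx : x ∈ range s
    · obtain ⟨i, hi⟩ := hx
      exact ⟨i, fun _ => hi⟩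
    · exact ⟨0, fun h => (hx h).elim⟩
  choose idx hidx using hidx
  set n := hFf.toFinset.sup idx with hn
  have hFT : ∀ x ∈ F, x ∈ range s → x ∈ T n := by
    intro x hx hxs
    refine ⟨idx x, ?_, hidx x hxs⟩
    exact Finset.le_sup (f := idx) (by simpa using hx)
  obtain ⟨m, hm⟩ := hF n F hFf
  -- the part of `F` outside the centres
  set Y : Set X := F \ range s with hY
  have hYf : Y.Finite := hFf.subset sdiff_subset
  have hYfin : Finite Y := hYf
  have hYpos : ∀ y : Y, 0 < Metric.infDist (y : X) (T n) := by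
    intro y
    rw [← Metric.infDist_pos_iff_notMem_closure (hTn n), (hTf n).isClosed.closure_eq]
    intro hy
    obtain ⟨i, -, hi⟩ := hy
    exact y.2.2 ⟨i, hi⟩
  obtain ⟨δ, hδ, hδle⟩ := exists_pos_le _ hYpos
  set η : ℝ := δ / 2 with hη
  have hη0 : 0 < η := half_pos hδ
  have hηδ : η < δ := half_lt_self hδ
  have hV : IsOpen (U n m ∩ {a | η < Metric.infDist a (T n)}) :=
    (hU n m).inter (isOpen_lt continuous_const (Metric.continuous_infDist_pt _))
  have hYV : Y ⊆ closure (U n m ∩ {a | η < Metric.infDist a (T n)}) := by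
    intro y hy
    have h1 : y ∈ closure (U n m) := hm hy.1
    have h2 : y ∈ {a | η < Metric.infDist a (T n)} := by
      have := hδle ⟨y, hy⟩
      show η < Metric.infDist y (T n)
      exact lt_of_lt_of_le hηδ this
    rw [mem_closure_iff] at h1 ⊢
    intro o ho hyo
    obtain ⟨z, hz1, hz2⟩ := h1 (o ∩ {a | η < Metric.infDist a (T n)})
      (ho.inter (isOpen_lt continuous_const (Metric.continuous_infDist_pt _))) ⟨hyo, h2⟩
    exact ⟨z, hz1.1, hz2, hz1.2⟩
  obtain ⟨U1, hU1o, hU1V, hYU1, hU1P⟩ := conc hP hA hAd hPA hYf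
    (fun j x hx => hsec j x fun i => (hx i).2) hV hYV
  -- the avoiding set
  set Z : Set X := {x | x ∈ U n m ∧ x ∈ range s ∧ IsOpen {x}} with hZ
  have hZo : IsOpen Z := by
    rw [isOpen_iff_forall_mem_open]
    intro x hx
    exact ⟨{x}, fun y hy => by rw [mem_singleton_iff] at hy; rw [hy]; exact hx, hx.2.2, rfl⟩
  set W : Set X := (B n m ∩ U n m) ∩ {a | Metric.infDist a (T n) < η} with hW
  have hWo : IsOpen W := ((hBo n m).inter (hU n m)).inter
    (isOpen_lt (Metric.continuous_infDist_pt _) continuous_const)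
  obtain ⟨x, hxS, hxU⟩ := hFS (U1 ∪ (W ∪ Z)) (hU1o.union (hWo.union hZo)) (by
    intro f hf
    by_cases hfs : f ∈ range s
    · have hfT := hFT f hf hfs
      have hfU := hm hf
      by_cases hfo : IsOpen {f}
      · apply subset_closure
        refine Or.inr (Or.inr ⟨?_, hfs, hfo⟩)
        obtain ⟨z, hz1, hz2⟩ := mem_closure_iff.1 hfU {f} hfo rfl
        rw [mem_singleton_iff] at hz1
        rwa [← hz1]
      · have h1 := hBc n m f hfT hfo hfU
        have h2 : f ∈ closure W := by
          rw [mem_closure_iff] at h1 ⊢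
          intro o ho hfo'
          obtain ⟨z, hz1, hz2⟩ := h1 (o ∩ {a | Metric.infDist a (T n) < η})
            (ho.inter (isOpen_lt (Metric.continuous_infDist_pt _) continuous_const))
            ⟨hfo', by
              show Metric.infDist f (T n) < η
              rw [Metric.infDist_zero_of_mem hfT]
              exact hη0⟩
          exact ⟨z, hz1.1, hz2, hz1.2⟩
        exact closure_mono (subset_union_of_subset_right subset_union_left _) h2
    · exact closure_mono subset_union_left (hYU1 ⟨hf, hfs⟩))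
  obtain ⟨hxP, hxs, hxK⟩ := hxS
  set e : Fin (l + 1) → X := fun i => x (Sum.inl i) with he
  -- all entries are in `U n m`
  have hsub : ∀ i, x i ∈ U n m := by
    intro i
    rcases hxU i with h1 | h1 | h1
    · exact (hU1V h1).1
    · exact h1.1.2
    · exact h1.1
  -- an entry outside `U1` is in `W`
  have houtW : ∀ j, e j ∉ U1 → e j ∈ W := by
    intro j hj
    rcases hxU (Sum.inl j) with h1 | h1 | h1
    · exact (hj h1).elim
    · exact h1
    · exact (hxs j h1.2.1).elim
  obtain ⟨j0, hj0⟩ := hU1P e hxP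
  have hρη : ρ n e < η := by
    refine lt_of_le_of_lt (Finset.inf'_le _ (Finset.mem_univ j0)) ?_
    exact (houtW j0 hj0).2
  obtain ⟨j1, -, hj1⟩ := Finset.exists_mem_eq_inf' (Finset.univ_nonempty (α := Fin (l + 1)))
    (fun j => Metric.infDist (e j) (T n))
  have hρj : ρ n e = Metric.infDist (e j1) (T n) := hj1
  have hj1U : e j1 ∉ U1 := by
    intro h1
    have h2 : η < Metric.infDist (e j1) (T n) := (hU1V h1).2
    rw [hρj] at hρη
    exact lt_asymm h2 hρη
  have hval : h n (ρ n e) = m := by
    rw [hρj]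
    exact hBh n m _ (houtW j1 hj1U).1.1
  obtain ⟨i, hi⟩ := hxK n
  rw [hval] at hi
  exact hi (hsub _)

/-- The main theorem, for metrizable spaces. -/
theorem s1_of_lindelof' {X : Type*} [TopologicalSpace X] [MetrizableSpace X]
    [SecondCountableTopology X] (hX : IsLusin X) (hKL : KOmegaLindelof X) : S1KOmega X := by
  letI : MetricSpace X := metrizableSpaceMetric X
  exact s1_of_lindelof hX hKL

end Pool.Agent.Helper18.KO
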