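import Pool.Agent.Helper18.KO.Basic

/-!
# A closed nowhere dense big set of least dimension
-/

open Set TopologicalSpace Filter Topology
open Pool.Agent.Helper85.Lusin

namespace Pool.Agent.Helper18.KO

variable {X : Type*} [TopologicalSpace X]

/-- The sets `K_g` are closed, and for some `g` the set `K_g` has empty interior. -/
theorem exists_nowhereDense [SecondCountableTopology X] {k : ℕ} {U : ℕ → ℕ → Set X}
    (hU : ∀ n m, IsOpen (U n m)) (hF : ∀ n, ∀ F : Set X, F.Finite → ∃ m, F ⊆ closure (U n m)) :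
    ∃ g : ℕ → ℕ, IsClosed {x : Fin k → X | ∀ n, ∃ i, x i ∉ U n (g n)} ∧
      interior {x : Fin k → X | ∀ n, ∃ i, x i ∉ U n (g n)} = ∅ := by
  classical
  have hbox : ∀ V : Set X, IsOpen V → IsOpen {x : Fin k → X | ∀ i, x i ∈ V} := by
    intro V hV
    simp only [ofPred_forall]
    exact isOpen_iInter_of_finite fun i => hV.preimage (continuous_apply i)
  have hclosed : ∀ g : ℕ → ℕ, IsClosed {x : Fin k → X | ∀ n, ∃ i, x i ∉ U n (g n)} := by
    intro g
    have : {x : Fin k → X | ∀ n, ∃ i, x i ∉ U n (g n)} = ⋂ n, {x | ∀ i, x i ∈ U n (g n)}ᶜ := by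
      ext x; simp
    rw [this]
    exact isClosed_iInter fun n => (hbox _ (hU n _)).isClosed_compl
  obtain ⟨b, hbc, hbe, hb⟩ := exists_countable_basis (Fin k → X)
  rcases b.eq_empty_or_nonempty with hb0 | hbne
  · refine ⟨fun _ => 0, hclosed _, ?_⟩
    rw [eq_empty_iff_forall_notMem]
    intro x hx
    obtain ⟨t, ht, -⟩ := hb.exists_subset_of_mem_open (mem_univ x) isOpen_univ
    rw [hb0] at ht
    exact ht
  obtain ⟨O, hO⟩ := hbc.exists_eq_range hbne
  have hOo : ∀ n, IsOpen (O n) := fun n => hb.isOpen (hO ▸ mem_range_self n)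
  have hOn : ∀ n, (O n).Nonempty := by
    intro n
    rw [nonempty_iff_ne_empty]
    intro h0
    exact hbe (by rw [hO, ← h0]; exact mem_range_self n)
  choose p hp using hOn
  choose g hg using fun n => hF n (range (p n)) (finite_range _)
  refine ⟨g, hclosed g, ?_⟩
  rw [eq_empty_iff_forall_notMem]
  intro x hx
  obtain ⟨t, ht, hxt, htI⟩ := hb.exists_subset_of_mem_open hx isOpen_interior
  rw [hO] at ht
  obtain ⟨n, rfl⟩ := ht
  have h1 : p n ∈ closure (univ.pi fun _ : Fin k => U n (g n)) := by
    rw [closure_pi_set]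
    intro i _
    exact hg n (mem_range_self i)
  obtain ⟨y, hy1, hy2⟩ := mem_closure_iff.1 h1 (O n) (hOo n) (hp n)
  obtain ⟨i, hi⟩ := interior_subset (htI hy1) n
  exact hi (hy2 i (mem_univ i))

/-- The tuple `P` reduced to a box with disjoint closures. -/
theorem exists_box [SecondCountableTopology X] [T3Space X] {l : ℕ} {P : Set (Fin l → X)}
    (hPb : Big P) :
    ∃ A : Fin l → Set X, (∀ i, IsClosed (A i)) ∧ (Pairwise fun i j => Disjoint (A i) (A j)) ∧
      Big (P ∩ {x | ∀ i, x i ∈ A i}) := by
  classical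
  obtain ⟨b, hbc, hbe, hb⟩ := exists_countable_basis X
  have hcount : Countable b := hbc
  obtain ⟨⟨c, hc⟩, hcb⟩ := hPb.exists_of_cover
    (J := {c : Fin l → b // Pairwise fun i j =>
      Disjoint (closure (c i : Set X)) (closure (c j : Set X))})
    (fun c => {x | ∀ i, x i ∈ closure (c.1 i : Set X)}) (by
      intro x hx hxi
      obtain ⟨U, hU, hUd⟩ := (finite_range x).t2_separation
      have : ∀ i, ∃ c : b, x i ∈ (c : Set X) ∧ closure (c : Set X) ⊆ U (x i) := by
        intro i
        obtain ⟨t, ht, hxt, htU⟩ := hb.exists_closure_subset ((hU (x i)).2.mem_nhds (hU (x i)).1)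
        exact ⟨⟨t, ht⟩, hxt, htU⟩
      choose c hc1 hc2 using this
      exact ⟨⟨c, fun i j hij => (hUd (mem_range_self i) (mem_range_self j)
        (fun hh => hij (hxi hh))).mono (hc2 i) (hc2 j)⟩, fun i => subset_closure (hc1 i)⟩)
  exact ⟨fun i => closure (c i : Set X), fun i => isClosed_closure, hc, hcb⟩

/-- The sections of a closed set with empty interior, in the least dimension in which such a set
is big, are nowhere dense over tuples that avoid a certain countable set. -/
theorem exists_sections [SecondCountableTopology X] {l : ℕ} {P : Set (Fin (l + 1) → X)}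
    (hP : IsClosed P) (hPi : interior P = ∅)
    (hmin : ∀ Q : Set (Fin l → X), IsClosed Q → interior Q = ∅ → ¬ Big Q) :
    ∃ D : Set X, D.Countable ∧ ∀ (j : Fin (l + 1)) (x : Fin l → X), Function.Injective x →
      (∀ i, x i ∉ D) → interior {a | (j.insertNth a x : Fin (l + 1) → X) ∈ P} = ∅ := by
  classical
  obtain ⟨b, hbc, hbe, hb⟩ := exists_countable_basis X
  have hcount : Countable b := hbc
  have hbne : ∀ V ∈ b, V.Nonempty := by
    intro V hV
    rw [nonempty_iff_ne_empty]
    rintro rfl
    exact hbe hV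
  set Q : Fin (l + 1) → Set X → Set (Fin l → X) :=
    fun j V => {y | ∀ v ∈ V, (j.insertNth v y : Fin (l + 1) → X) ∈ P} with hQ
  have hQc : ∀ j V, IsClosed (Q j V) := by
    intro j V
    have : Q j V = ⋂ v ∈ V, (fun y : Fin l → X => (j.insertNth v y : Fin (l + 1) → X)) ⁻¹' P := by
      ext y; simp [hQ]
    rw [this]
    refine isClosed_biInter fun v _ => hP.preimage ?_
    exact Continuous.finInsertNth j continuous_const continuous_id
  have hQn : ∀ j, ∀ V ∈ b, interior (Q j V) = ∅ := by
    intro j V hV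
    rw [eq_empty_iff_forall_notMem]
    intro y hy
    obtain ⟨v, hv⟩ := hbne V hV
    set R : Set (Fin (l + 1) → X) := {x | x j ∈ V ∧ (fun i => x (j.succAbove i)) ∈ interior (Q j V)}
      with hR
    have hRo : IsOpen R := by
      apply IsOpen.and
      · exact (hb.isOpen hV).preimage (continuous_apply j)
      · exact isOpen_interior.preimage (continuous_pi fun i => continuous_apply _)
    have hRP : R ⊆ P := by
      rintro x ⟨hx1, hx2⟩
      have h1 := interior_subset hx2 (x j) hx1
      have e : (j.insertNth (x j) (fun i => x (j.succAbove i)) : Fin (l + 1) → X) = x :=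
        Fin.insertNth_self_removeNth j x
      rwa [e] at h1
    have hR0 : (j.insertNth v y : Fin (l + 1) → X) ∈ R := by
      refine ⟨by simpa using hv, ?_⟩
      have : (fun i => (j.insertNth v y : Fin (l + 1) → X) (j.succAbove i)) = y := by
        funext i; simp
      rw [this]
      exact hy
    have : (j.insertNth v y : Fin (l + 1) → X) ∈ interior P := interior_maximal hRP hRo hR0
    rw [hPi] at this
    exact this
  have := fun (j : Fin (l + 1)) (V : b) => not_big (hmin (Q j V) (hQc j V) (hQn j V V.2))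
  choose C hC hC' using this
  refine ⟨⋃ j, ⋃ V, C j V, countable_iUnion fun j => countable_iUnion fun V => hC j V, ?_⟩
  intro j x hxi hxD
  rw [eq_empty_iff_forall_notMem]
  intro a ha
  obtain ⟨V, hV, haV, hVI⟩ := hb.exists_subset_of_mem_open ha isOpen_interior
  obtain ⟨i, hi⟩ := hC' j ⟨V, hV⟩ x (fun v hv => interior_subset
    (s := {a | (j.insertNth a x : Fin (l + 1) → X) ∈ P}) (hVI hv)) hxi
  exact hxD i (mem_iUnion.2 ⟨j, mem_iUnion.2 ⟨⟨V, hV⟩, hi⟩⟩)

/-- Summary: under a failure of `S_1` there are a closed set `P` inside a box with disjoint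
closed sides, big, and with nowhere dense sections over tuples avoiding a countable set. -/
theorem exists_setup [SecondCountableTopology X] [T3Space X] {k : ℕ} {U : ℕ → ℕ → Set X}
    (hU : ∀ n m, IsOpen (U n m)) (hF : ∀ n, ∀ F : Set X, F.Finite → ∃ m, F ⊆ closure (U n m))
    (hbig : ∀ g : ℕ → ℕ, Big {x : Fin k → X | ∀ n, ∃ i, x i ∉ U n (g n)}) :
    ∃ (l : ℕ) (P : Set (Fin (l + 1) → X)) (A : Fin (l + 1) → Set X) (D : Set X),
      IsClosed P ∧ Big P ∧ (∀ i, IsClosed (A i)) ∧ (Pairwise fun i j => Disjoint (A i) (A j)) ∧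
      (∀ x ∈ P, ∀ i, x i ∈ A i) ∧ D.Countable ∧
      ∀ (j : Fin (l + 1)) (x : Fin (l + 1) → X), (∀ i, i ≠ j → x i ∉ D) →
        interior {a | Function.update x j a ∈ P} = ∅ := by
  classical
  obtain ⟨g, hg1, hg2⟩ := exists_nowhereDense (k := k) hU hF
  have hex : ∃ l, ∃ P : Set (Fin l → X), IsClosed P ∧ interior P = ∅ ∧ Big P :=
    ⟨k, _, hg1, hg2, hbig g⟩
  have hsp := Nat.find_spec hex
  have hmn := fun l (hl : l < Nat.find hex) => Nat.find_min hex hl
  generalize Nat.find hex = l at hsp hmn
  obtain ⟨P, hP, hPi, hPb⟩ := hsp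
  rcases l with _ | l
  · exfalso
    obtain ⟨x, hx, -, -⟩ := hPb ∅ countable_empty
    have h1 : P = univ := by
      rw [eq_univ_iff_forall]
      intro y
      rw [Subsingleton.elim y x]
      exact hx
    rw [h1, interior_univ] at hPi
    exact (hPi ▸ mem_univ x : x ∈ (∅ : Set (Fin 0 → X)))
  obtain ⟨A, hA, hAd, hAb⟩ := exists_box hPb
  have hQc : IsClosed (P ∩ {x | ∀ i, x i ∈ A i}) := by
    refine hP.inter ?_
    simp only [ofPred_forall]
    exact isClosed_iInter fun i => (hA i).preimage (continuous_apply i)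
  have hQi : interior (P ∩ {x | ∀ i, x i ∈ A i}) = ∅ := by
    rw [eq_empty_iff_forall_notMem]
    intro x hx
    have : x ∈ interior P := interior_mono inter_subset_left hx
    rw [hPi] at this
    exact this
  obtain ⟨D, hD, hD'⟩ := exists_sections hQc hQi
    (fun Q hQ hQi hQb => hmn l (Nat.lt_succ_self l) ⟨Q, hQ, hQi, hQb⟩)
  refine ⟨l, P ∩ {x | ∀ i, x i ∈ A i}, A, D, hQc, hAb, hA, hAd, fun x hx i => hx.2 i, hD, ?_⟩
  intro j x hx
  by_cases hxi : Function.Injective fun i => x (j.succAbove i)
  · have h1 := hD' j (fun i => x (j.succAbove i)) hxi fun i => hx _ (Fin.succAbove_ne j i)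
    have h2 : ∀ a, (j.insertNth a (fun i => x (j.succAbove i)) : Fin (l + 1) → X) =
        Function.update x j a := by
      intro a
      exact (Fin.insertNth_removeNth j a x)
    simp only [h2] at h1
    exact h1
  · rw [eq_empty_iff_forall_notMem]
    intro a ha
    have ha' : Function.update x j a ∈ P ∩ {x | ∀ i, x i ∈ A i} :=
      interior_subset (s := {a | Function.update x j a ∈ P ∩ {x | ∀ i, x i ∈ A i}}) ha
    simp only [Function.Injective, not_forall] at hxi
    obtain ⟨i, i', hii, hne⟩ := hxi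
    have h1 := ha'.2 (j.succAbove i)
    have h2 := ha'.2 (j.succAbove i')
    rw [Function.update_of_ne (Fin.succAbove_ne j i)] at h1
    rw [Function.update_of_ne (Fin.succAbove_ne j i')] at h2
    have h3 : j.succAbove i ≠ j.succAbove i' := fun h => hne (Fin.succAbove_right_injective h)
    exact (hAd h3).le_bot ⟨h1, hii ▸ h2⟩

end Pool.Agent.Helper18.KO
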